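import Mathlib

/-!
Let `T₂ ⊆ T₁` be topologies on a set `X` such that `(X, T₂)` is compact Hausdorff,
`ind (X, T₁) = 0` and `ind (X, T₂) > 0`. Then `(X, T₁)` is not a Hurewicz space.
-/

namespace Pool.Agent.Results.MP_8652de_gt.NotHurewicz

open Set Topology Filter TopologicalSpace

universe u

/-- `IndLE n Y` says that the small inductive dimension of `Y` is at most `n`: every point `p` and
open set `O` containing `p` admit an open `U` with `p ∈ U ⊆ O` whose boundary has small inductive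
dimension at most `n - 1` (for `n = 0`: whose boundary is empty). -/
def IndLE : (n : ℕ) → (Y : Type u) → [TopologicalSpace Y] → Prop
  | 0, Y, _ => ∀ (p : Y) (O : Set Y), IsOpen O → p ∈ O →
      ∃ U : Set Y, IsOpen U ∧ p ∈ U ∧ U ⊆ O ∧ frontier U = ∅
  | n + 1, Y, _ => ∀ (p : Y) (O : Set Y), IsOpen O → p ∈ O →
      ∃ U : Set Y, IsOpen U ∧ p ∈ U ∧ U ⊆ O ∧ IndLE n (frontier U)

/-- The small inductive dimension of `Y`: it is `⊥` (standing for `-1`) for the empty space, and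
otherwise the least natural number `n` with `IndLE n Y`, or `∞` if there is none. -/
noncomputable def ind (Y : Type u) [TopologicalSpace Y] : WithBot ℕ∞ :=
  open Classical in
  if IsEmpty Y then ⊥ else ((⨅ (n : ℕ) (_ : IndLE n Y), (n : ℕ∞) : ℕ∞) : WithBot ℕ∞)

/-- `Y` is a Hurewicz space: for every sequence of open covers `𝒰 n` there are finite subfamilies
`𝒱 n ⊆ 𝒰 n` such that every point lies in `⋃ 𝒱 n` for all but finitely many `n`. -/
def Hurewicz (Y : Type u) [TopologicalSpace Y] : Prop :=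
  ∀ 𝒰 : ℕ → Set (Set Y), (∀ n, (∀ U ∈ 𝒰 n, IsOpen U) ∧ ⋃₀ 𝒰 n = univ) →
    ∃ 𝒱 : ℕ → Set (Set Y), (∀ n, 𝒱 n ⊆ 𝒰 n ∧ (𝒱 n).Finite) ∧
      ∀ y, ∀ᶠ n in atTop, y ∈ ⋃₀ 𝒱 n

section Abstract

variable {K : Type u} [TopologicalSpace K] [CompactSpace K]

/-- A branch through a countable tree of nonempty closed sets. -/
theorem branch (𝓔 : Set (Set K))
    (hH : ∀ (E : List ℕ → Set K) (N : List ℕ → ℕ → Set K), (∀ i, E i ∈ 𝓔) →
      (∀ i n, IsClosed (N i n)) → (∀ i, Antitone (N i)) → (∀ i, E i ∩ ⋂ n, N i n = ∅) →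
      ∃ f : List ℕ → ℕ, ∀ x, {i | x ∈ E i ∩ N i (f i)}.Finite)
    {S : Type*} (C : S → Set K) (hCc : ∀ s, IsClosed (C s)) (hCn : ∀ s, (C s).Nonempty)
    (E : S → Set K) (hE : ∀ s, E s ∈ 𝓔) (N : S → ℕ → Set K) (hNc : ∀ s n, IsClosed (N s n))
    (hNa : ∀ s, Antitone (N s)) (hNE : ∀ s, E s ∩ ⋂ n, N s n = ∅)
    (next : S → ℕ → S) (hnext : ∀ s n, C (next s n) ⊆ C s ∩ N s n) (s₀ : S) :
    ∃ (σ : ℕ → S) (n : ℕ → ℕ) (x : K), σ 0 = s₀ ∧ (∀ j, σ (j + 1) = next (σ j) (n j)) ∧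
      (∀ j, x ∈ C (σ j)) ∧ {j | x ∈ E (σ j)}.Finite := by
  let node : List ℕ → S := fun l => l.foldr (fun n s => next s n) s₀
  obtain ⟨f, hf⟩ := hH (fun l => E (node l)) (fun l => N (node l)) (fun l => hE _)
    (fun l n => hNc _ _) (fun l => hNa _) (fun l => hNE _)
  let b : ℕ → List ℕ := fun j => Nat.rec [] (fun _ l => f l :: l) j
  have hb : ∀ j, b (j + 1) = f (b j) :: b j := fun j => rfl
  have hlen : ∀ j, (b j).length = j := by
    intro j
    induction j with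
    | zero => rfl
    | succ j ih => rw [hb, List.length_cons, ih]
  have hinj : Function.Injective b := fun i j h => by rw [← hlen i, ← hlen j, h]
  have hσ : ∀ j, node (b (j + 1)) = next (node (b j)) (f (b j)) := fun j => rfl
  have hsub : ∀ j, C (node (b (j + 1))) ⊆ C (node (b j)) := fun j x hx => by
    rw [hσ] at hx
    exact (hnext _ _ hx).1
  obtain ⟨x, hx⟩ := IsCompact.nonempty_iInter_of_sequence_nonempty_isCompact_isClosed
    (fun j => C (node (b j))) hsub (fun j => hCn _) (hCc _).isCompact (fun j => hCc _)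
  have hx' : ∀ j, x ∈ C (node (b j)) := fun j => mem_iInter.1 hx j
  refine ⟨fun j => node (b j), fun j => f (b j), x, rfl, hσ, hx', ?_⟩
  refine ((hf x).preimage hinj.injOn).subset ?_
  intro j hj
  refine ⟨hj, ?_⟩
  have := hx' (j + 1)
  rw [hσ] at this
  exact (hnext _ _ this).2

variable {𝓔 : Set (Set K)} (hcompl : ∀ E ∈ 𝓔, Eᶜ ∈ 𝓔)
  (hN : ∀ E ∈ 𝓔, ∀ y ∉ E, ∃ N : ℕ → Set K, (∀ n, IsClosed (N n) ∧ N n ∈ 𝓝 y) ∧ Antitone N ∧
    E ∩ ⋂ n, N n = ∅)
  (hH : ∀ (E : List ℕ → Set K) (N : List ℕ → ℕ → Set K), (∀ i, E i ∈ 𝓔) →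
      (∀ i n, IsClosed (N i n)) → (∀ i, Antitone (N i)) → (∀ i, E i ∩ ⋂ n, N i n = ∅) →
      ∃ f : List ℕ → ℕ, ∀ x, {i | x ∈ E i ∩ N i (f i)}.Finite)

include hcompl hN hH in
/-- For a set `L`, the sets `E ∩ L` and `L \ E` are not both dense in a nonempty relatively
open set. -/
theorem notBothDense {L : Set K} {E : Set K} (hE : E ∈ 𝓔) {V₀ : Set K}
    (hV₀ : IsOpen V₀) (hne : (V₀ ∩ L).Nonempty) :
    ∃ V : Set K, IsOpen V ∧ V ⊆ V₀ ∧ (V ∩ L).Nonempty ∧ (V ∩ L ⊆ E ∨ V ∩ L ⊆ Eᶜ) := by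
  by_contra hcon
  have h1 : ∀ V : Set K, IsOpen V → V ⊆ V₀ → (V ∩ L).Nonempty →
      ∀ b : Bool, ∃ q ∈ V ∩ L, q ∉ (if b then E else Eᶜ) := by
    intro V hV hVV hVL b
    by_contra h
    push Not at h
    apply hcon
    refine ⟨V, hV, hVV, hVL, ?_⟩
    cases b with
    | true => left; intro x hx; simpa using h x hx
    | false => right; intro x hx; simpa using h x hx
  let S := {V : Set K // IsOpen V ∧ V ⊆ V₀ ∧ (V ∩ L).Nonempty} × Bool
  have hEb : ∀ b : Bool, (if b then E else Eᶜ) ∈ 𝓔 := by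
    intro b
    cases b with
    | true => simpa using hE
    | false => simpa using hcompl E hE
  have h2 : ∀ s : S, ∃ q ∈ s.1.1 ∩ L, ∃ N : ℕ → Set K, (∀ n, IsClosed (N n) ∧ N n ∈ 𝓝 q) ∧
      Antitone N ∧ (if s.2 then E else Eᶜ) ∩ ⋂ n, N n = ∅ := by
    intro s
    obtain ⟨q, hq1, hq2⟩ := h1 s.1.1 s.1.2.1 s.1.2.2.1 s.1.2.2.2 s.2
    exact ⟨q, hq1, hN _ (hEb s.2) q hq2⟩
  choose q hq N hNn hNa hNE using h2
  let next : S → ℕ → S := fun s n => (⟨s.1.1 ∩ interior (N s n), s.1.2.1.inter isOpen_interior,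
    inter_subset_left.trans s.1.2.2.1,
    ⟨q s, ⟨(hq s).1, mem_interior_iff_mem_nhds.2 (hNn s n).2⟩, (hq s).2⟩⟩, !s.2)
  obtain ⟨σ, n, x, h0, hs, hx, hfin⟩ := branch 𝓔 hH (S := S) (fun s => closure (s.1.1 ∩ L))
    (fun s => isClosed_closure) (fun s => s.1.2.2.2.closure)
    (fun s => if s.2 then E else Eᶜ) (fun s => hEb s.2) N (fun s n => (hNn s n).1) hNa hNE next
    (by
      intro s n
      apply subset_inter
      · apply closure_mono
        rintro y ⟨⟨hy1, _⟩, hy2⟩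
        exact ⟨hy1, hy2⟩
      · apply closure_minimal _ (hNn s n).1
        rintro y ⟨⟨_, hy1⟩, _⟩
        exact interior_subset hy1)
    (⟨V₀, hV₀, subset_rfl, hne⟩, true)
  have hpar : ∀ j, (σ (2 * j)).2 = true ∧ (σ (2 * j + 1)).2 = false := by
    intro j
    induction j with
    | zero =>
      refine ⟨by rw [Nat.mul_zero, h0], ?_⟩
      rw [hs, Nat.mul_zero, h0]
      rfl
    | succ j ih =>
      have e1 : (σ (2 * (j + 1))).2 = true := by
        rw [show 2 * (j + 1) = (2 * j + 1) + 1 by ring, hs]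
        show (!(σ (2 * j + 1)).2) = true
        rw [ih.2]
        rfl
      refine ⟨e1, ?_⟩
      rw [hs]
      show (!(σ (2 * (j + 1))).2) = false
      rw [e1]
      rfl
  by_cases hxE : x ∈ E
  · refine (Set.infinite_of_injective_forall_mem (f := fun j : ℕ => 2 * j)
      (fun a b h => by simpa using h) ?_) hfin
    intro j
    show x ∈ (if (σ (2 * j)).2 then E else Eᶜ)
    rw [(hpar j).1]
    simpa using hxE
  · refine (Set.infinite_of_injective_forall_mem (f := fun j : ℕ => 2 * j + 1)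
      (fun a b h => by simpa using h) ?_) hfin
    intro j
    show x ∈ (if (σ (2 * j + 1)).2 then E else Eᶜ)
    rw [(hpar j).2]
    simpa using hxE

variable [T2Space K]

include hcompl hN hH in
/-- The key lemma. -/
theorem key (hbase : ∀ (p : K) (V : Set K), IsOpen V → p ∈ V → ∃ E ∈ 𝓔, p ∈ E ∧ E ⊆ V)
    {L : Set K} (hL : IsClosed L) (hLc : IsPreconnected L) (hLn : L.Nontrivial)
    {V : Set K} (hV : IsOpen V) (hVL : (V ∩ L).Nonempty) :
    ∃ E ∈ 𝓔, ∃ y ∈ V ∩ L, y ∉ E ∧ ∃ G : Set K, IsOpen G ∧ G ∩ L ⊆ E ∧ y ∈ closure (G ∩ L) := by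
  by_contra hcon
  push Not at hcon
  obtain ⟨p, hpV, hpL⟩ := hVL
  obtain ⟨p', hp'L, hpp'⟩ := hLn.exists_ne p
  have hO : V ∩ {p'}ᶜ ∈ 𝓝 p := (hV.inter isOpen_compl_singleton).mem_nhds ⟨hpV, hpp'.symm⟩
  obtain ⟨W, hW, hWc, hWO⟩ := exists_mem_nhds_isClosed_subset hO
  obtain ⟨E, hE, hpE, hEW⟩ := hbase p (interior W) isOpen_interior
    (mem_interior_iff_mem_nhds.2 hW)
  have hEW' : E ⊆ W := hEW.trans interior_subset
  have hcE : closure E ⊆ V := (closure_minimal hEW' hWc).trans (hWO.trans inter_subset_left)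
  have hp'E : p' ∉ E := fun h => (hWO (hEW' h)).2 rfl
  -- the relative interiors of `E ∩ L` and of `L \ E`
  set G : Set K := ⋃₀ {G | IsOpen G ∧ G ∩ L ⊆ E} with hG
  set G' : Set K := ⋃₀ {G | IsOpen G ∧ G ∩ L ⊆ Eᶜ} with hG'
  have hGo : IsOpen G := isOpen_sUnion fun _ h => h.1
  have hG'o : IsOpen G' := isOpen_sUnion fun _ h => h.1
  have hGE : G ∩ L ⊆ E := by
    rintro x ⟨⟨H, hH1, hxH⟩, hxL⟩
    exact hH1.2 ⟨hxH, hxL⟩
  have hG'E : G' ∩ L ⊆ Eᶜ := by
    rintro x ⟨⟨H, hH1, hxH⟩, hxL⟩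
    exact hH1.2 ⟨hxH, hxL⟩
  have hGL : closure (G ∩ L) ⊆ L := closure_minimal inter_subset_right hL
  have hG'L : closure (G' ∩ L) ⊆ L := closure_minimal inter_subset_right hL
  have hA : closure (G ∩ L) ⊆ E := by
    intro y hy
    by_contra hyE
    exact hcon E hE y ⟨hcE (closure_mono hGE hy), hGL hy⟩ hyE G hGo hGE hy
  have hA' : closure (G' ∩ L) ⊆ Eᶜ := by
    intro y hy hyE
    exact hcon Eᶜ (hcompl E hE) y ⟨hcE (subset_closure hyE), hG'L hy⟩ (fun h => h hyE) G' hG'o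
      hG'E hy
  have hcov : L ⊆ closure (G ∩ L) ∪ closure (G' ∩ L) := by
    intro y hyL
    by_contra hy
    rw [mem_union, not_or] at hy
    have hO : IsOpen ((closure (G ∩ L))ᶜ ∩ (closure (G' ∩ L))ᶜ) :=
      isClosed_closure.isOpen_compl.inter isClosed_closure.isOpen_compl
    obtain ⟨U, hU, hUV, hUL, hUE⟩ := notBothDense hcompl hN hH hE hO ⟨y, hy, hyL⟩
    obtain ⟨z, hzU, hzL⟩ := hUL
    rcases hUE with h | h
    · exact (hUV hzU).1 (subset_closure ⟨⟨U, ⟨hU, h⟩, hzU⟩, hzL⟩)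
    · exact (hUV hzU).2 (subset_closure ⟨⟨U, ⟨hU, h⟩, hzU⟩, hzL⟩)
  have hconn := isPreconnected_closed_iff.1 hLc (closure (G ∩ L)) (closure (G' ∩ L))
    isClosed_closure isClosed_closure hcov
  have h1 : (L ∩ closure (G ∩ L)).Nonempty := by
    rcases hcov hpL with h | h
    · exact ⟨p, hpL, h⟩
    · exact absurd hpE (hA' h)
  have h2 : (L ∩ closure (G' ∩ L)).Nonempty := by
    rcases hcov hp'L with h | h
    · exact absurd (hA h) hp'E
    · exact ⟨p', hp'L, h⟩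
  obtain ⟨z, -, hz1, hz2⟩ := hconn h1 h2
  exact hA' hz2 (hA hz1)

include hcompl hN hH in
theorem totallyDisconnected
    (hbase : ∀ (p : K) (V : Set K), IsOpen V → p ∈ V → ∃ E ∈ 𝓔, p ∈ E ∧ E ⊆ V) :
    TotallyDisconnectedSpace K := by
  by_contra hcon
  obtain ⟨L, hL, hLc, hLn⟩ : ∃ L : Set K, IsClosed L ∧ IsPreconnected L ∧ L.Nontrivial := by
    rw [totallyDisconnectedSpace_iff_connectedComponent_subsingleton] at hcon
    push Not at hcon
    obtain ⟨x, hx⟩ := hcon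
    exact ⟨connectedComponent x, isClosed_connectedComponent, isPreconnected_connectedComponent,
      hx⟩
  let S := {V : Set K // IsOpen V ∧ (V ∩ L).Nonempty}
  have h2 : ∀ s : S, ∃ E ∈ 𝓔, ∃ y ∈ s.1 ∩ L, ∃ (G : Set K) (N : ℕ → Set K), (IsOpen G ∧
      G ∩ L ⊆ E ∧ y ∈ closure (G ∩ L)) ∧ (∀ n, IsClosed (N n) ∧ N n ∈ 𝓝 y) ∧
      Antitone N ∧ E ∩ ⋂ n, N n = ∅ := by
    intro s
    obtain ⟨E, hE, y, hy, hyE, G, hG⟩ := key hcompl hN hH hbase hL hLc hLn s.2.1 s.2.2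
    obtain ⟨N, h⟩ := hN E hE y hyE
    exact ⟨E, hE, y, hy, G, N, hG, h⟩
  choose E hE y hy G N hG hNn hNa hNE using h2
  have h3 : ∀ (s : S) (n : ℕ), ∃ s' : S, closure (s'.1 ∩ L) ⊆ closure (s.1 ∩ L) ∩ N s n ∧
      closure (s'.1 ∩ L) ⊆ E s := by
    intro s n
    have hO : s.1 ∩ interior (N s n) ∈ 𝓝 (y s) :=
      (s.2.1.inter isOpen_interior).mem_nhds ⟨(hy s).1, mem_interior_iff_mem_nhds.2 (hNn s n).2⟩
    obtain ⟨z, hz1, hz2, hz3⟩ := mem_closure_iff_nhds.1 (hG s).2.2 _ hO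
    obtain ⟨W, hW, hWc, hWO⟩ := exists_mem_nhds_isClosed_subset
      (((s.2.1.inter isOpen_interior).inter (hG s).1).mem_nhds ⟨hz1, hz2⟩)
    refine ⟨⟨interior W, isOpen_interior, z, mem_interior_iff_mem_nhds.2 hW, hz3⟩, ?_, ?_⟩
    · refine subset_inter (closure_mono ?_) (closure_minimal ?_ (hNn s n).1)
      · rintro x ⟨hx1, hx2⟩
        exact ⟨(hWO (interior_subset hx1)).1.1, hx2⟩
      · rintro x ⟨hx1, hx2⟩
        exact interior_subset (hWO (interior_subset hx1)).1.2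
    · intro x hx
      have hx1 : x ∈ W ∩ L := by
        have : IsClosed (W ∩ L) := hWc.inter hL
        exact closure_minimal (inter_subset_inter_left _ interior_subset) this hx
      exact (hG s).2.1 ⟨(hWO hx1.1).2, hx1.2⟩
  choose next hnext using h3
  obtain ⟨x₀, hx₀⟩ := hLn.nonempty
  obtain ⟨σ, n, x, h0, hs, hx, hfin⟩ := branch 𝓔 hH (S := S) (fun s => closure (s.1 ∩ L))
    (fun s => isClosed_closure) (fun s => s.2.2.closure) E hE N (fun s n => (hNn s n).1) hNa hNE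
    next (fun s n => (hnext s n).1) ⟨univ, isOpen_univ, x₀, mem_univ _, hx₀⟩
  apply Set.infinite_univ (α := ℕ)
  convert hfin
  symm
  rw [eq_univ_iff_forall]
  intro j
  have := hx (j + 1)
  rw [hs] at this
  exact (hnext (σ j) (n j)).2 this

end Abstract

section Hur

variable {X : Type u}

theorem exists_of_hurewicz [TopologicalSpace X] (hX : Hurewicz X) {ι : Type*} [Countable ι]
    (U : ι → ℕ → Set X) (hU : ∀ i n, IsOpen (U i n)) (hm : ∀ i, Monotone (U i))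
    (hc : ∀ i, ⋃ n, U i n = univ) : ∃ f : ι → ℕ, ∀ x, {i | x ∉ U i (f i)}.Finite := by
  classical
  rcases isEmpty_or_nonempty ι with h | h
  · exact ⟨fun _ => 0, fun x => Set.toFinite _⟩
  obtain ⟨g, hg⟩ := exists_surjective_nat ι
  choose k hk using hg
  obtain ⟨𝒱, h𝒱, hx⟩ := hX (fun j => range (U (g j))) (fun j => ⟨by
    rintro _ ⟨n, rfl⟩
    exact hU _ _, by rw [sUnion_range]; exact hc _⟩)
  have h1 : ∀ j, ∃ n, ⋃₀ 𝒱 j ⊆ U (g j) n := by
    intro j
    obtain ⟨hs, hf⟩ := h𝒱 j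
    have h2 : ∀ V : Set X, ∃ n, V ∈ 𝒱 j → V = U (g j) n := by
      intro V
      by_cases hV : V ∈ 𝒱 j
      · obtain ⟨n, hn⟩ := hs hV
        exact ⟨n, fun _ => hn.symm⟩
      · exact ⟨0, fun h => absurd h hV⟩
    choose m hm' using h2
    obtain ⟨M, hM⟩ := (hf.image m).bddAbove
    refine ⟨M, sUnion_subset fun V hV => ?_⟩
    conv_lhs => rw [hm' V hV]
    exact hm _ (hM ⟨V, hV, rfl⟩)
  choose F hF using h1
  refine ⟨fun i => F (k i), fun x => ?_⟩
  have hkinj : Function.Injective k := fun a b hab => by rw [← hk a, ← hk b, hab]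
  have hfin : {j | x ∉ ⋃₀ 𝒱 j}.Finite := by
    obtain ⟨a, ha⟩ := eventually_atTop.1 (hx x)
    refine (Set.finite_lt_nat a).subset ?_
    intro j hj
    by_contra hja
    exact hj (ha j (not_lt.1 hja))
  refine (hfin.preimage hkinj.injOn).subset ?_
  intro i hi hmem
  apply hi
  have := hF (k i) hmem
  rw [hk] at this
  exact this

theorem main (T₁ T₂ : TopologicalSpace X) (h : T₁ ≤ T₂) (hc : @CompactSpace X T₂)
    (h2 : @T2Space X T₂)
    (hb : ∀ (p : X) (V : Set X), IsOpen[T₁] V → p ∈ V → ∃ E, @IsClopen X T₁ E ∧ p ∈ E ∧ E ⊆ V)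
    (hH : @Hurewicz X T₁) : @TotallyDisconnectedSpace X T₂ := by
  have hopen : ∀ s : Set X, IsOpen[T₂] s → IsOpen[T₁] s := fun s hs => h s hs
  let _ : TopologicalSpace X := T₂
  refine totallyDisconnected (𝓔 := {E | @IsClopen X T₁ E}) ?_ ?_ ?_ ?_
  · intro E hE
    exact (@IsClopen.compl X T₁ E hE)
  · intro E hE y hy
    have hEo : IsOpen[T₁] Eᶜ := (@IsClosed.isOpen_compl X T₁ E hE.1)
    let 𝒰 : Set (Set X) := {U | ∃ N : Set X, IsClosed N ∧ N ∈ 𝓝 y ∧ U = Eᶜ ∪ Nᶜ}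
    obtain ⟨𝒱, h𝒱, hx⟩ := hH (fun _ => 𝒰) (fun _ => ⟨by
      rintro _ ⟨N, hN, -, rfl⟩
      exact @IsOpen.union X _ _ T₁ hEo (hopen _ hN.isOpen_compl), by
      rw [eq_univ_iff_forall]
      intro x
      by_cases hxE : x ∈ E
      · have hxy : x ≠ y := fun h => hy (h ▸ hxE)
        obtain ⟨N, hN, hNc, hNs⟩ := exists_mem_nhds_isClosed_subset
          (isOpen_compl_singleton.mem_nhds (show y ∈ ({x} : Set X)ᶜ from hxy.symm))
        exact ⟨Eᶜ ∪ Nᶜ, ⟨N, hNc, hN, rfl⟩, Or.inr fun hxN => hNs hxN rfl⟩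
      · exact ⟨Eᶜ ∪ univᶜ, ⟨univ, isClosed_univ, univ_mem, rfl⟩, Or.inl hxE⟩⟩)
    have h1 : ∀ n, ∃ M : Set X, IsClosed M ∧ M ∈ 𝓝 y ∧ ⋃₀ 𝒱 n ⊆ Eᶜ ∪ Mᶜ := by
      intro n
      obtain ⟨hs, hf⟩ := h𝒱 n
      have h3 : ∀ V : Set X, ∃ N : Set X, V ∈ 𝒱 n → (IsClosed N ∧ N ∈ 𝓝 y ∧ V = Eᶜ ∪ Nᶜ) := by
        intro V
        by_cases hV : V ∈ 𝒱 n
        · obtain ⟨N, hN⟩ := hs hV
          exact ⟨N, fun _ => hN⟩
        · exact ⟨univ, fun h => absurd h hV⟩
      choose N hN using h3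
      refine ⟨⋂ V ∈ 𝒱 n, N V, isClosed_biInter fun V hV => (hN V hV).1,
        (biInter_mem hf).2 fun V hV => (hN V hV).2.1, sUnion_subset fun V hV => ?_⟩
      intro x hxV
      rw [(hN V hV).2.2] at hxV
      rcases hxV with h | h
      · exact Or.inl h
      · exact Or.inr fun hx => h (mem_iInter₂.1 hx V hV)
    choose M hMc hMn hM using h1
    refine ⟨fun n => ⋂ k ∈ Finset.range (n + 1), M k, fun n =>
      ⟨isClosed_biInter fun k _ => hMc k, (Filter.biInter_finset_mem _).2 fun k _ => hMn k⟩, ?_, ?_⟩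
    · intro a b hab
      refine biInter_subset_biInter_left ?_
      intro k hk
      simp only [Finset.coe_range, mem_Iio] at hk ⊢
      omega
    · rw [eq_empty_iff_forall_notMem]
      rintro x ⟨hxE, hxN⟩
      obtain ⟨n, hn⟩ := (hx x).exists
      rcases hM n hn with h | h
      · exact h hxE
      · apply h
        have := mem_iInter.1 hxN n
        exact mem_iInter₂.1 this n (Finset.mem_range.2 (Nat.lt_succ_self n))
  · intro E N hE hNc hNa hNE
    obtain ⟨f, hf⟩ := @exists_of_hurewicz X T₁ hH (List ℕ) _ (fun i n => (E i)ᶜ ∪ (N i n)ᶜ)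
      (fun i n => @IsOpen.union X _ _ T₁ (@IsClosed.isOpen_compl X T₁ _ (hE i).1)
        (hopen _ (hNc i n).isOpen_compl))
      (fun i a b hab => union_subset_union_right _ (compl_subset_compl.2 (hNa i hab)))
      (fun i => by
        rw [eq_univ_iff_forall]
        intro x
        by_cases hxE : x ∈ E i
        · have : x ∉ ⋂ n, N i n := fun hx => by
            have : x ∈ E i ∩ ⋂ n, N i n := ⟨hxE, hx⟩
            rw [hNE i] at this
            exact this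
          rw [mem_iInter] at this
          push Not at this
          obtain ⟨n, hn⟩ := this
          exact mem_iUnion.2 ⟨n, Or.inr hn⟩
        · exact mem_iUnion.2 ⟨0, Or.inl hxE⟩)
    refine ⟨f, fun x => (hf x).subset ?_⟩
    rintro i ⟨h1, h2⟩ (h | h)
    · exact h h1
    · exact h h2
  · intro p V hV hp
    exact hb p V (hopen V hV) hp

end Hur

theorem indLE_zero_of_ind {Y : Type u} [TopologicalSpace Y] (h : ind Y ≤ 0) : IndLE 0 Y := by
  unfold ind at h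
  split_ifs at h with h1
  · intro p
    exact (h1.false p).elim
  · have h2 : (⨅ (n : ℕ) (_ : IndLE n Y), (n : ℕ∞)) ≤ 0 := by exact_mod_cast h
    have h3 : (⨅ (n : ℕ) (_ : IndLE n Y), (n : ℕ∞)) < 1 := lt_of_le_of_lt h2 (by norm_num)
    simp only [iInf_lt_iff] at h3
    obtain ⟨n, hn, hlt⟩ := h3
    have : n = 0 := by
      have : (n : ℕ∞) < ((1 : ℕ) : ℕ∞) := by simpa using hlt
      have := Nat.cast_lt.1 this
      omega
    subst this
    exact hn

theorem ind_le_zero {Y : Type u} [TopologicalSpace Y] (h : IndLE 0 Y) : ind Y ≤ 0 := by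
  unfold ind
  split_ifs with h1
  · exact bot_le
  · have : (⨅ (n : ℕ) (_ : IndLE n Y), (n : ℕ∞)) ≤ 0 := iInf₂_le 0 h
    exact_mod_cast this

/-- **Theorem.** Let `T₂ ⊆ T₁` be topologies on `X` (in Mathlib's order `T₁ ≤ T₂`) such that
`(X, T₂)` is compact Hausdorff, `ind (X, T₁) = 0` and `ind (X, T₂) > 0`. Then `(X, T₁)` is not a
Hurewicz space. (Normality of `(X, T₁)` is not needed.) -/
theorem result (X : Type u) (T₁ T₂ : TopologicalSpace X) (h12 : T₁ ≤ T₂)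
    (hc : @CompactSpace X T₂) (h2 : @T2Space X T₂)
    (hind₁ : @ind X T₁ = 0) (hind₂ : 0 < @ind X T₂) : ¬ @Hurewicz X T₁ := by
  intro hH
  have h1 : @IndLE 0 X T₁ := @indLE_zero_of_ind X T₁ hind₁.le
  have htd : @TotallyDisconnectedSpace X T₂ := by
    refine main T₁ T₂ h12 hc h2 ?_ hH
    intro p V hV hp
    obtain ⟨U, hU, hpU, hUV, hfr⟩ := h1 p V hV hp
    exact ⟨U, (@isClopen_iff_frontier_eq_empty X T₁ U).2 hfr, hpU, hUV⟩
  let _ : TopologicalSpace X := T₂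
  have h3 : IndLE 0 X := by
    intro p O hO hp
    obtain ⟨U, hU, hpU, hUO⟩ := compact_exists_isClopen_in_isOpen hO hp
    exact ⟨U, hU.isOpen, hpU, hUO, isClopen_iff_frontier_eq_empty.1 hU⟩
  exact absurd (ind_le_zero h3) (not_le.2 hind₂)

end Pool.Agent.Results.MP_8652de_gt.NotHurewicz
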